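import Pool.Agent.TTC.StmtsF

set_option autoImplicit false

/-!
# Squad TTC, row OM2: the node of the odd model
-/

namespace Pool.Agent.TTC.H59

open Polynomial

section

variable {k : Type} [Field k]

/-- an explicit form of a polynomial of degree at most six without constant term -/
theorem form6 (P : k[X]) (hd : P.natDegree ≤ 6) (h0 : P.coeff 0 = 0) :
    P = C (P.coeff 1) * X + C (P.coeff 2) * X ^ 2 + C (P.coeff 3) * X ^ 3 + C (P.coeff 4) * X ^ 4 +
      C (P.coeff 5) * X ^ 5 + C (P.coeff 6) * X ^ 6 := by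
  have h := P.as_sum_range_C_mul_X_pow' (Nat.lt_succ_of_le hd)
  simp only [Finset.sum_range_succ, Finset.sum_range_zero, h0, C_0, zero_mul, zero_add,
    pow_one] at h
  exact h

theorem sext_natDegree_le (a : Fin 7 → k) : (sext a).natDegree ≤ 6 := by
  unfold sext
  compute_degree

theorem sext_coeff6 (a : Fin 7 → k) : (sext a).coeff 6 = a 0 := by
  unfold sext
  simp

/-- values of the Taylor polynomial and its derivatives -/
theorem taylor_vals (F : k[X]) (α y : k) :
    (taylor α F).eval y = F.eval (y + α) ∧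
    (derivative (taylor α F)).eval y = (derivative F).eval (y + α) ∧
    (derivative (derivative (taylor α F))).eval y = (derivative (derivative F)).eval (y + α) := by
  have h : ∀ G : k[X], derivative (taylor α G) = taylor α (derivative G) := by
    intro G
    rw [taylor_apply, taylor_apply, derivative_comp]
    simp
  refine ⟨taylor_eval _ _ _, ?_, ?_⟩
  · rw [h, taylor_eval]
  · rw [h, h, taylor_eval]

theorem d1 (b4 b3 b2 b1 b0 z : k) :
    (derivative (X ^ 5 + C b4 * X ^ 4 + C b3 * X ^ 3 + C b2 * X ^ 2 + C b1 * X + C b0)).eval z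
      = 5 * z ^ 4 + 4 * b4 * z ^ 3 + 3 * b3 * z ^ 2 + 2 * b2 * z + b1 := by
  simp
  ring

theorem d2 (b4 b3 b2 b1 b0 z : k) :
    (derivative (derivative (X ^ 5 + C b4 * X ^ 4 + C b3 * X ^ 3 + C b2 * X ^ 2 + C b1 * X
      + C b0))).eval z = 20 * z ^ 3 + 12 * b4 * z ^ 2 + 6 * b3 * z + 2 * b2 := by
  simp
  ring

/-- the identities between the odd model and the sextic -/
theorem key (a : Fin 7 → k) (α z y : k) (h0 : (sext a).eval α = 0)
    (hzy : a 0 ^ 4 * (derivative (sext a)).eval α = z * y) :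
    a 0 ^ 4 * (derivative (sext a)).eval α ^ 2 * (om a α).eval z
      = z ^ 6 * (sext a).eval (y + α) ∧
    a 0 ^ 4 * (derivative (sext a)).eval α ^ 2 * (derivative (om a α)).eval z
      = 6 * z ^ 5 * (sext a).eval (y + α) - z * y * z ^ 4 * (derivative (sext a)).eval (y + α) ∧
    a 0 ^ 4 * (derivative (sext a)).eval α ^ 2 * (derivative (derivative (om a α))).eval z
      = 30 * z ^ 4 * (sext a).eval (y + α)
        - 10 * (z * y) * z ^ 3 * (derivative (sext a)).eval (y + α)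
        + (z * y) ^ 2 * z ^ 2 * (derivative (derivative (sext a))).eval (y + α) := by
  obtain ⟨e1, e2, e3⟩ := taylor_vals (sext a) α y
  rw [← e1, ← e2, ← e3]
  have hc1 : (taylor α (sext a)).coeff 1 = (derivative (sext a)).eval α := taylor_coeff_one _ _
  rw [← hc1] at hzy ⊢
  have hF := form6 (taylor α (sext a)) (by rw [natDegree_taylor]; exact sext_natDegree_le a)
    (by rw [taylor_coeff_zero, h0])
  unfold om
  generalize hP : taylor α (sext a) = P at *
  generalize P.coeff 1 = T1 at *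
  generalize P.coeff 2 = T2 at *
  generalize P.coeff 3 = T3 at *
  generalize P.coeff 4 = T4 at *
  generalize P.coeff 5 = T5 at *
  generalize P.coeff 6 = T6 at *
  have p0 : P.eval y = T1 * y + T2 * y ^ 2 + T3 * y ^ 3 + T4 * y ^ 4 + T5 * y ^ 5 + T6 * y ^ 6 := by
    rw [hF]; simp
  have p1 : (derivative P).eval y = T1 + 2 * T2 * y + 3 * T3 * y ^ 2 + 4 * T4 * y ^ 3
      + 5 * T5 * y ^ 4 + 6 * T6 * y ^ 5 := by
    rw [hF]; simp; ring
  have p2 : (derivative (derivative P)).eval y = 2 * T2 + 6 * T3 * y + 12 * T4 * y ^ 2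
      + 20 * T5 * y ^ 3 + 30 * T6 * y ^ 4 := by
    rw [hF]; simp; ring
  rw [p0, p1, p2]
  refine ⟨?_, ?_, ?_⟩
  · simp only [eval_add, eval_mul, eval_pow, eval_X, eval_C]
    have h : a 0 ^ 4 * T1 ^ 2 * (z ^ 5 + T2 * a 0 ^ 4 * z ^ 4 + T3 * T1 * a 0 ^ 8 * z ^ 3 +
        T4 * T1 ^ 2 * a 0 ^ 12 * z ^ 2 + T5 * T1 ^ 3 * a 0 ^ 16 * z + T6 * T1 ^ 4 * a 0 ^ 20)
        = T1 * (a 0 ^ 4 * T1) * z ^ 5 + T2 * (a 0 ^ 4 * T1) ^ 2 * z ^ 4
          + T3 * (a 0 ^ 4 * T1) ^ 3 * z ^ 3 + T4 * (a 0 ^ 4 * T1) ^ 4 * z ^ 2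
          + T5 * (a 0 ^ 4 * T1) ^ 5 * z + T6 * (a 0 ^ 4 * T1) ^ 6 := by ring
    rw [h, hzy]
    ring
  · rw [d1]
    have h' : a 0 ^ 4 * T1 ^ 2 * (5 * z ^ 4 + 4 * (T2 * a 0 ^ 4) * z ^ 3
        + 3 * (T3 * T1 * a 0 ^ 8) * z ^ 2 +
        2 * (T4 * T1 ^ 2 * a 0 ^ 12) * z + T5 * T1 ^ 3 * a 0 ^ 16)
        = 5 * T1 * (a 0 ^ 4 * T1) * z ^ 4 + 4 * T2 * (a 0 ^ 4 * T1) ^ 2 * z ^ 3
          + 3 * T3 * (a 0 ^ 4 * T1) ^ 3 * z ^ 2 + 2 * T4 * (a 0 ^ 4 * T1) ^ 4 * z
          + T5 * (a 0 ^ 4 * T1) ^ 5 := by ring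
    rw [h', hzy]
    ring
  · rw [d2]
    have h' : a 0 ^ 4 * T1 ^ 2 * (20 * z ^ 3 + 12 * (T2 * a 0 ^ 4) * z ^ 2
        + 6 * (T3 * T1 * a 0 ^ 8) * z + 2 * (T4 * T1 ^ 2 * a 0 ^ 12))
        = 20 * T1 * (a 0 ^ 4 * T1) * z ^ 3 + 12 * T2 * (a 0 ^ 4 * T1) ^ 2 * z ^ 2
          + 6 * T3 * (a 0 ^ 4 * T1) ^ 3 * z + 2 * T4 * (a 0 ^ 4 * T1) ^ 4 := by ring
    rw [h', hzy]
    ring

end

theorem om2 : Om2Stmt := by
  intro k _ _ a α _ ha h0 hc hN
  obtain ⟨θ, hθ0, hθ1, hθ2, huniq⟩ := hN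
  have hK : a 0 ^ 4 * (derivative (sext a)).eval α ^ 2 ≠ 0 :=
    mul_ne_zero (pow_ne_zero _ ha) (pow_ne_zero _ hc)
  have he : a 0 ^ 4 * (derivative (sext a)).eval α ≠ 0 := mul_ne_zero (pow_ne_zero _ ha) hc
  constructor
  · rintro z ⟨h1, h2, h3⟩
    have hz : z ≠ 0 := by
      rintro rfl
      have hd : (sext a).natDegree = 6 := by
        refine le_antisymm (sext_natDegree_le a) (le_natDegree_of_ne_zero ?_)
        rw [sext_coeff6]
        exact ha
      have h4 : (taylor α (sext a)).coeff 6 = a 0 := by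
        have h := coeff_taylor_natDegree (f := sext a) (r := α)
        rw [leadingCoeff, hd, sext_coeff6] at h
        exact h
      unfold om at h1
      simp only [eval_add, eval_mul, eval_pow, eval_X, eval_C, h4] at h1
      have h5 : (taylor α (sext a)).coeff 1 = (derivative (sext a)).eval α := taylor_coeff_one _ _
      rw [h5] at h1
      have h6 : a 0 * (derivative (sext a)).eval α ^ 4 * a 0 ^ 20 = 0 := by
        linear_combination h1
      exact mul_ne_zero (mul_ne_zero ha (pow_ne_zero _ hc)) (pow_ne_zero _ ha) h6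
    obtain ⟨y, hy⟩ : ∃ y, a 0 ^ 4 * (derivative (sext a)).eval α = z * y :=
      ⟨a 0 ^ 4 * (derivative (sext a)).eval α / z, by field_simp⟩
    obtain ⟨k1, k2, k3⟩ := key a α z y h0 hy
    have hzy : z * y ≠ 0 := hy ▸ he
    rw [h1, mul_zero] at k1
    rw [h2, mul_zero] at k2
    rw [h3, mul_zero] at k3
    have f0 : (sext a).eval (y + α) = 0 := by
      rcases mul_eq_zero.1 k1.symm with h | h
      · exact absurd h (pow_ne_zero _ hz)
      · exact h
    rw [f0] at k2 k3
    have f1 : (derivative (sext a)).eval (y + α) = 0 := by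
      have h : z * y * z ^ 4 * (derivative (sext a)).eval (y + α) = 0 := by
        linear_combination k2
      rcases mul_eq_zero.1 h with h | h
      · exact absurd h (mul_ne_zero hzy (pow_ne_zero _ hz))
      · exact h
    rw [f1] at k3
    have f2 : (derivative (derivative (sext a))).eval (y + α) = 0 := by
      have h : (z * y) ^ 2 * z ^ 2 * (derivative (derivative (sext a))).eval (y + α) = 0 := by
        linear_combination -k3
      rcases mul_eq_zero.1 h with h | h
      · exact absurd h (mul_ne_zero (pow_ne_zero _ hzy) (pow_ne_zero _ hz))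
      · exact h
    have hy' := huniq _ f0 f1
    rw [hy'] at f2
    exact hθ2 f2
  · have hne : θ - α ≠ 0 := by
      intro h
      rw [sub_eq_zero] at h
      rw [h] at hθ1
      exact hc hθ1
    refine ⟨a 0 ^ 4 * (derivative (sext a)).eval α / (θ - α), ?_⟩
    obtain ⟨k1, k2, _⟩ := key a α (a 0 ^ 4 * (derivative (sext a)).eval α / (θ - α)) (θ - α) h0
      (by field_simp)
    rw [sub_add_cancel, hθ0] at k1
    rw [sub_add_cancel, hθ0, hθ1] at k2
    constructor
    · rcases mul_eq_zero.1 (k1.trans (mul_zero _)) with h | h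
      · exact absurd h hK
      · exact h
    · rcases mul_eq_zero.1 (k2.trans (by ring)) with h | h
      · exact absurd h hK
      · exact h

end Pool.Agent.TTC.H59
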